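import Pool.Agent.KLev.QFinal

/-!
# Halving lines: `f n ≥ n * exp ((log n) ^ 0.51)`

`Line`, `GeneralPosition`, `IsBisector` and `f` are defined in `Pool/Agent/KLev/Halving.lean`
(namespace `KLev.Halving`):

* `Line a b c = {p | a * p.1 + b * p.2 = c}`,
* `GeneralPosition P`: no three distinct points of `P` on a common line,
* `IsBisector P L`: `L` is a line through two distinct points of `P` with exactly
  `|P| / 2 - 1` points of `P` on each open side,
* `f n`: the maximum of the number of bisectors over all `n`-point sets in general position.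
-/

namespace Pool.Agent.Results.MP_e17eac_co.BeyondSqrt

open Filter KLev

/-- All large even `n` satisfy `f n ≥ n * exp ((log n) ^ 0.51)`. -/
theorem result : ∀ᶠ n : ℕ in atTop, Even n →
    (n : ℝ) * Real.exp (Real.log n ^ (51 / 100 : ℝ)) ≤ (Halving.f n : ℝ) := by
  obtain ⟨a, ha⟩ := (finalQ 2).exists_forall_of_atTop
  filter_upwards [eventually_ge_atTop (2 * a + 2)] with n hn heven
  obtain ⟨m, hm⟩ := heven
  obtain ⟨N, E, P, hH, hN, hE⟩ := ha m (by omega)
  have h1 := hH.le_f hN
  have e : 2 * m = n := by omega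
  rw [e] at h1
  have h2 : (E : ℝ) ≤ Halving.f n := by exact_mod_cast h1
  refine le_trans (le_trans ?_ hE) h2
  have hnm : (n : ℝ) = 2 * m := by rw [← e]; push_cast; ring
  have hn1 : (1 : ℝ) ≤ n := by
    have : 1 ≤ n := by omega
    exact_mod_cast this
  have hm0 : (0 : ℝ) ≤ m := Nat.cast_nonneg _
  apply mul_le_mul hnm.le _ (Real.exp_pos _).le (by positivity)
  apply Real.exp_le_exp.mpr
  apply Real.rpow_le_rpow (Real.log_nonneg hn1) _ (by norm_num)
  apply Real.log_le_log (by linarith)
  linarith

end Pool.Agent.Results.MP_e17eac_co.BeyondSqrt
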