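import Pool.Agent.KLev.Final

/-!
# Halving lines: a lower bound beating `n * exp (C * sqrt (log n))` for every constant `C`

`Line`, `GeneralPosition`, `IsBisector` and `f` are defined in `Pool/Agent/KLev/Halving.lean`
(namespace `KLev.Halving`):

* `Line a b c = {p | a * p.1 + b * p.2 = c}`,
* `GeneralPosition P`: no three distinct points of `P` on a common line,
* `IsBisector P L`: `L` is a line through two distinct points of `P` with exactly
  `|P| / 2 - 1` points of `P` on each open side,
* `f n`: the maximum of the number of bisectors over all `n`-point sets in general position.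
-/

namespace Pool.Agent.Results.MP_e17eac_co.EveryConstant

open Filter KLev

/-- For every real `C`, all large even `n` satisfy `f n ≥ n * exp (C * sqrt (log n))`. -/
theorem result : ∀ C : ℝ, ∀ᶠ n : ℕ in atTop, Even n →
    (n : ℝ) * Real.exp (C * Real.sqrt (Real.log n)) ≤ (Halving.f n : ℝ) := by
  intro C
  obtain ⟨a, ha⟩ := (final (max C 0) (le_max_right _ _)).exists_forall_of_atTop
  filter_upwards [eventually_ge_atTop (2 * a + 2)] with n hn heven
  obtain ⟨m, hm⟩ := heven
  obtain ⟨N, E, P, hH, hN, hE⟩ := ha m (by omega)
  have h1 := hH.le_f hN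
  have e : 2 * m = n := by omega
  rw [e] at h1
  have h2 : (E : ℝ) ≤ Halving.f n := by exact_mod_cast h1
  refine le_trans (le_trans ?_ hE) h2
  have hnm : (n : ℝ) ≤ ((4 * m : ℕ) : ℝ) := by
    have : n ≤ 4 * m := by omega
    exact_mod_cast this
  have hn0 : (0 : ℝ) < n := by
    have : 0 < n := by omega
    exact_mod_cast this
  apply mul_le_mul hnm _ (Real.exp_pos _).le (by positivity)
  apply Real.exp_le_exp.mpr
  have h3 : C * Real.sqrt (Real.log n) ≤ max C 0 * Real.sqrt (Real.log n) :=
    mul_le_mul_of_nonneg_right (le_max_left _ _) (Real.sqrt_nonneg _)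
  refine h3.trans (mul_le_mul_of_nonneg_left ?_ (le_max_right _ _))
  exact Real.sqrt_le_sqrt (Real.log_le_log hn0 hnm)

end Pool.Agent.Results.MP_e17eac_co.EveryConstant
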